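import Mathlib
import Pool.Agent.R246.GF.Stm

/-!
# GF-COT: the cotangent space of the Grassmannian
-/

namespace Pool.Agent.R12.GF

open Matrix
open Pool.Agent.R246.GF

/-- the real-to-polynomial embedding of matrices -/
noncomputable def cc {n : ℕ} : ℝ →+* Pol n := (MvPolynomial.C).comp Complex.ofRealHom

theorem cc_apply {n : ℕ} (x : ℝ) : (cc x : Pol n) = MvPolynomial.C ((x : ℝ) : ℂ) := rfl

/-- matrix of variables -/
noncomputable def XX (n : ℕ) : Matrix (Fin n) (Fin n) (Pol n) :=
  Matrix.of fun r s => MvPolynomial.X (r, s)

theorem L_eq {n : ℕ} (A B : Matrix (Fin n) (Fin n) ℝ) (hA : A.transpose = A)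
    (hB : B.transpose = B) (r s : Fin n) :
    ((A.map cc : Matrix (Fin n) (Fin n) (Pol n)) * XX n * B.map cc : Matrix (Fin n) (Fin n) (Pol n))
      r s = L (A * Matrix.single r s 1 * B) := by
  have hY : ∀ a b, (A * Matrix.single r s 1 * B : Matrix (Fin n) (Fin n) ℝ) a b =
      A r a * B b s := by
    intro a b
    have h1 : A a r = A r a := by
      conv_rhs => rw [← hA]
      rfl
    have h2 : B s b = B b s := by
      conv_rhs => rw [← hB]
      rfl
    rw [Matrix.mul_apply, Finset.sum_eq_single s]
    · rw [Matrix.mul_apply, Finset.sum_eq_single r]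
      · simp [h1, h2]
      · intro c _ hc
        rw [Matrix.single_apply_of_row_ne (Ne.symm hc)]
        simp
      · intro h; exact absurd (Finset.mem_univ _) h
    · intro c _ hc
      rw [Matrix.mul_apply]
      have : ∑ j, A a j * Matrix.single r s (1 : ℝ) j c = 0 := by
        apply Finset.sum_eq_zero
        intro j _
        rw [Matrix.single_apply_of_col_ne _ _ (Ne.symm hc)]
        simp
      rw [this, zero_mul]
    · intro h; exact absurd (Finset.mem_univ _) h
  unfold L
  rw [Matrix.mul_apply, Finset.sum_comm]
  refine Finset.sum_congr rfl fun b _ => ?_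
  rw [Matrix.mul_apply, Finset.sum_mul]
  refine Finset.sum_congr rfl fun a _ => ?_
  rw [hY a b]
  simp only [Matrix.map_apply, XX, Matrix.of_apply, cc_apply]
  push_cast
  rw [MvPolynomial.C_mul]
  ring

theorem L_add {n : ℕ} (A B : Matrix (Fin n) (Fin n) ℝ) : L (A + B) = (L A + L B : Pol n) := by
  unfold L
  rw [← Finset.sum_add_distrib]
  refine Finset.sum_congr rfl fun r _ => ?_
  rw [← Finset.sum_add_distrib]
  refine Finset.sum_congr rfl fun s _ => ?_
  simp only [Matrix.add_apply]
  push_cast
  rw [MvPolynomial.C_add]
  ring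

/-- ring algebra -/
theorem alg {n : ℕ} {S : Type*} [CommRing S] (p D : Matrix (Fin n) (Fin n) S) (hp : p * p = p)
    (hpt : p.transpose = p) (hDt : D.transpose = D) (hDD : D * D = 0)
    (h : (p + D) * (p + D) = p + D) :
    D = (1 - p) * D * p + ((1 - p) * D * p).transpose := by
  have h1 : p * D + D * p = D := by
    have : p * p + p * D + D * p + D * D = p + D := by
      rw [← h]; noncomm_ring
    rw [hp, hDD] at this
    have h2 : p + (p * D + D * p) = p + D := by rw [← this]; abel
    exact add_left_cancel h2
  have h2 : p * D * p = 0 := by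
    have : p * (p * D + D * p) * p = p * D * p := by rw [h1]
    have h3 : p * (p * D + D * p) * p = p * p * D * p + p * D * (p * p) := by noncomm_ring
    rw [h3, hp] at this
    have : p * D * p + p * D * p = p * D * p + 0 := by rw [this, add_zero]
    exact add_left_cancel this
  rw [Matrix.transpose_mul, Matrix.transpose_mul, Matrix.transpose_sub, Matrix.transpose_one,
    hpt, hDt]
  have h4 : (1 - p) * D * p + p * (D * (1 - p)) = (p * D + D * p) - p * D * p - p * D * p := by
    noncomm_ring
  rw [h4, h2, h1]
  simp

theorem cot : SCOT := by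
  intro n k P hP r s
  obtain ⟨hPt, hPP, -⟩ := hP
  set Q : Matrix (Fin n) (Fin n) ℝ := 1 - M P with hQ
  have hQt : Q.transpose = Q := by rw [hQ, Matrix.transpose_sub, Matrix.transpose_one, hPt]
  have hQQ : Q * Q = Q := by
    rw [hQ]
    have : (1 - M P) * (1 - M P) = 1 - M P - M P + M P * M P := by noncomm_ring
    rw [this, hPP]
    abel
  have hQP : Q * M P = 0 := by
    rw [hQ, Matrix.sub_mul, Matrix.one_mul, hPP, sub_self]
  refine ⟨Q * (Matrix.single r s 1 + Matrix.single s r 1) * M P, ?_, ?_⟩
  · calc Q * (Q * (Matrix.single r s 1 + Matrix.single s r 1) * M P) * M P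
        = (Q * Q) * (Matrix.single r s 1 + Matrix.single s r 1) * (M P * M P) := by
          simp only [Matrix.mul_assoc]
      _ = Q * (Matrix.single r s 1 + Matrix.single s r 1) * M P := by rw [hQQ, hPP]
  · -- the quotient ring
    set J : Ideal (Pol n) := mm P ^ 2 ⊔ IG n k with hJ
    set π : Pol n →+* Pol n ⧸ J := Ideal.Quotient.mk J with hπ
    have hπ0 : ∀ x : Pol n, π x = 0 ↔ x ∈ J := fun x => Ideal.Quotient.eq_zero_iff_mem
    set D : Matrix (Fin n) (Fin n) (Pol n) := XX n - (M P).map cc with hD
    have hDrs : ∀ a b, D a b = MvPolynomial.X (a, b) - MvPolynomial.C ((P (a, b) : ℝ) : ℂ) := by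
      intro a b; rfl
    have hDmm : ∀ a b, D a b ∈ mm P := by
      intro a b
      rw [hDrs]
      exact Ideal.subset_span ⟨(a, b), rfl⟩
    have hIG : ∀ x : Pol n, x ∈ IG n k → π x = 0 := fun x hx =>
      (hπ0 x).2 (Ideal.mem_sup_right hx)
    have hmm : ∀ x : Pol n, x ∈ mm P ^ 2 → π x = 0 := fun x hx =>
      (hπ0 x).2 (Ideal.mem_sup_left hx)
    have hevX : ∀ (T : Pt n) (a b), ev T (MvPolynomial.X (a, b)) = ((T (a, b) : ℝ) : ℂ) := by
      intro T a b
      simp [ev]
    set p' : Matrix (Fin n) (Fin n) (Pol n ⧸ J) := ((M P).map cc).map π with hp'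
    set D' : Matrix (Fin n) (Fin n) (Pol n ⧸ J) := D.map π with hD'
    have hX' : p' + D' = (XX n).map π := by
      rw [hp', hD', hD]
      ext a b
      simp
    have key : D' = (1 - p') * D' * p' + ((1 - p') * D' * p').transpose := by
      apply alg
      · rw [hp', ← Matrix.map_mul, ← Matrix.map_mul, hPP]
      · rw [hp', ← Matrix.transpose_map, ← Matrix.transpose_map, hPt]
      · ext a b
        have : π (D b a - D a b) = 0 := by
          apply hIG
          intro T hT
          rw [hDrs, hDrs]
          simp only [map_sub, hevX]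
          have h1 : T (b, a) = T (a, b) := by
            have := congrFun (congrFun hT.1 a) b
            simpa [M, Matrix.transpose_apply] using this
          have h2 : P (b, a) = P (a, b) := by
            have := congrFun (congrFun hPt a) b
            simpa [M, Matrix.transpose_apply] using this
          rw [h1, h2]
          ring
        rw [map_sub, sub_eq_zero] at this
        simpa [hD'] using this
      · rw [hD', ← Matrix.map_mul]
        ext a b
        rw [Matrix.map_apply, Matrix.mul_apply, map_sum, Matrix.zero_apply]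
        apply Finset.sum_eq_zero
        intro c _
        apply hmm
        rw [pow_two]
        exact Ideal.mul_mem_mul (hDmm _ _) (hDmm _ _)
      · rw [hX', ← Matrix.map_mul]
        ext a b
        rw [Matrix.map_apply, Matrix.map_apply, ← sub_eq_zero, ← map_sub]
        apply hIG
        intro T hT
        rw [map_sub, Matrix.mul_apply, map_sum]
        simp only [map_mul, XX, Matrix.of_apply, hevX]
        have := congrFun (congrFun hT.2.1 a) b
        rw [Matrix.mul_apply] at this
        simp only [M, Matrix.of_apply] at this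
        rw [← this]
        push_cast
        ring
    -- the off-diagonal block
    have hblock : (1 - p') * D' * p' = ((Q.map cc) * XX n * (M P).map cc).map π := by
      have h1 : (1 - p') = (Q.map cc).map π := by
        rw [hp', hQ]
        ext a b
        simp [Matrix.map_apply, Matrix.sub_apply, Matrix.one_apply, apply_ite]
      have h2 : (Q.map cc) * D = (Q.map cc) * XX n := by
        rw [hD, Matrix.mul_sub, ← Matrix.map_mul, hQP]
        simp
      rw [h1, hD', hp', ← Matrix.map_mul, ← Matrix.map_mul, h2]
    have e1 := congrFun (congrFun key r) s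
    rw [Matrix.add_apply, Matrix.transpose_apply, hblock, Matrix.map_apply, Matrix.map_apply,
      L_eq Q (M P) hQt hPt, L_eq Q (M P) hQt hPt] at e1
    rw [← hπ0, map_sub, Matrix.mul_add, Matrix.add_mul, L_add, map_add, ← e1, sub_eq_zero]
    rfl

end Pool.Agent.R12.GF
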